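import Mathlib

/-!
A regular self-complementary graph on nine vertices with a vertex lying in exactly
`k (k - 1) = 2` triangles which is not fixed by any isomorphism onto the complement.
-/

namespace Pool.Agent.Results.MP_b6be33_co.NineVertices

/-- `P` is an isomorphism-permutation of `G`: an isomorphism from `G` onto its complement. -/
def IsoPerm {V : Type*} (G : SimpleGraph V) (P : Equiv.Perm V) : Prop :=
  ∀ u v, u ≠ v → (G.Adj u v ↔ ¬ G.Adj (P u) (P v))

/-- The number of triangles of `G` containing `v`. -/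
def trianglesAt {V : Type*} [Fintype V] [DecidableEq V] (G : SimpleGraph V) [DecidableRel G.Adj]
    (v : V) : ℕ :=
  ((G.cliqueFinset 3).filter (fun s => v ∈ s)).card

/-- neighbour lists -/
def nb : Fin 9 → Finset (Fin 9)
  | 0 => {1, 2, 7, 8}
  | 1 => {0, 5, 6, 7}
  | 2 => {0, 3, 5, 8}
  | 3 => {2, 4, 5, 7}
  | 4 => {3, 5, 6, 8}
  | 5 => {1, 2, 3, 4}
  | 6 => {1, 4, 7, 8}
  | 7 => {0, 1, 3, 6}
  | 8 => {0, 2, 4, 6}

/-- the graph -/
def G9 : SimpleGraph (Fin 9) where
  Adj u v := v ∈ nb u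
  symm := ⟨by decide⟩
  loopless := ⟨by decide⟩

instance : DecidableRel G9.Adj := fun u v => inferInstanceAs (Decidable (v ∈ nb u))

/-- the isomorphism onto the complement -/
def P9 : Equiv.Perm (Fin 9) where
  toFun := ![1, 2, 3, 0, 5, 6, 7, 4, 8]
  invFun := ![3, 0, 1, 2, 7, 4, 5, 6, 8]
  left_inv := by decide
  right_inv := by decide

theorem P9_iso : IsoPerm G9 P9 := by
  unfold IsoPerm
  decide

theorem G9_reg : G9.IsRegularOfDegree 4 := by
  unfold SimpleGraph.IsRegularOfDegree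
  decide

theorem G9_tri : trianglesAt G9 0 = 2 := by
  unfold trianglesAt
  decide +kernel

theorem not_fixed (P : Equiv.Perm (Fin 9)) (hP : IsoPerm G9 P) (h0 : P 0 = 0) : False := by
  -- let `u` be the preimage of `4`, which is a neighbour of `0`
  obtain ⟨u, hu⟩ := P.surjective 4
  have hu0 : u ≠ 0 := by
    rintro rfl
    rw [h0] at hu
    exact absurd hu (by decide)
  have hadj : G9.Adj 0 u := by
    have := hP 0 u (Ne.symm hu0)
    rw [h0, hu] at this
    exact this.2 (by decide)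
  -- `u` has a neighbour `w` inside the neighbourhood of `0`
  have key0 : ∀ u : Fin 9, G9.Adj 0 u → ∃ w, G9.Adj 0 w ∧ G9.Adj u w := by decide
  obtain ⟨w, hw0, hwu⟩ := key0 u hadj
  have h1 : ¬ G9.Adj 0 (P w) := by
    have := (hP 0 w hw0.ne).1 hw0
    rwa [h0] at this
  have h2 : ¬ G9.Adj 4 (P w) := by
    have := (hP u w hwu.ne).1 hwu
    rwa [hu] at this
  have h3 : P w ≠ 4 := by
    rw [← hu]
    exact fun h => hwu.ne (P.injective h).symm
  have h4 : P w ≠ 0 := by
    rw [← h0]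
    exact fun h => hw0.ne (P.injective h).symm
  have key : ∀ x : Fin 9, x ≠ 0 → x ≠ 4 → ¬ G9.Adj 0 x → G9.Adj 4 x := by decide
  exact h2 (key _ h4 h3 h1)

theorem result :
    ¬ (∀ (k : ℕ) (V : Type) [Fintype V] [DecidableEq V] (G : SimpleGraph V) [DecidableRel G.Adj],
      Fintype.card V = 4 * k + 1 → G.IsRegularOfDegree (2 * k) → (∃ P, IsoPerm G P) →
      ∀ v, trianglesAt G v = k * (k - 1) → ∃ P, IsoPerm G P ∧ P v = v) := by
  intro h
  obtain ⟨P, hP, h0⟩ := h 2 (Fin 9) G9 (by simp) G9_reg ⟨P9, P9_iso⟩ 0 G9_tri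
  exact not_fixed P hP h0

end Pool.Agent.Results.MP_b6be33_co.NineVertices
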